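import Mathlib
import Pool.Agent.Lib.MP_46d37e_an.Main

set_option autoImplicit false

namespace Pool.Agent.Results.MP_46d37e_an.AdditionFormula

open Pool.Agent.Lib.MP_46d37e_an

/-- **Addition formula for the f-invariant of algebraic actions of free groups.**
Let `0 → A → B → C → 0` be an exact sequence of modules over the integral group ring `ZF r` of
the free group of rank `r`, the modules being discrete. Suppose that the actions of the free group
on the Pontryagin duals (with normalised Haar measures) all have finite generating partitions.
Then the f-invariants `fA`, `fB`, `fC` of the three actions exist in `[-∞, ∞)` (the limits of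
`F(α^n)`, the same for all finite generating partitions `α`), and `fB = fA + fC`, where
`-∞ + x = -∞`. -/
theorem result (r : ℕ) (A B C : Type*)
    [AddCommGroup A] [TopologicalSpace A] [DiscreteTopology A] [Module (ZF r) A]
    [AddCommGroup B] [TopologicalSpace B] [DiscreteTopology B] [Module (ZF r) B]
    [AddCommGroup C] [TopologicalSpace C] [DiscreteTopology C] [Module (ZF r) C]
    (i : A →ₗ[ZF r] B) (q : B →ₗ[ZF r] C) (hi : Function.Injective i)
    (hq : Function.Surjective q) (hex : Function.Exact i q)
    (hA : ∃ (k : ℕ) (α : DualGrp A → Fin k), IsGenPart r A α)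
    (hB : ∃ (k : ℕ) (α : DualGrp B → Fin k), IsGenPart r B α)
    (hC : ∃ (k : ℕ) (α : DualGrp C → Fin k), IsGenPart r C α) :
    ∃ fA fB fC : EReal, fA < ⊤ ∧ fB < ⊤ ∧ fC < ⊤ ∧ IsFInv r A fA ∧ IsFInv r B fB ∧
      IsFInv r C fC ∧ fB = fA + fC :=
  addition_formula r A B C i q hi hq hex hA hB hC

end Pool.Agent.Results.MP_46d37e_an.AdditionFormula
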